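import Pool.Agent.H225.EP3

/-!
# Exact patterns of places with almost prime `m` and `a m + 1`, `a ∈ S`, at integers with restricted
digits

Let `S` be an admissible set of `s ≥ 2` positive integers.  Let `b ≥ 2` be a base and let the digits of an
integer `n < b^K` be restricted: the `i`-th digit belongs to a set `A i`, where the sets `A i` are
arbitrary, depend on the place `i < K`, and have the only property that the number `∏ |A i|` of these
integers is at least `e^{-δK} b^K`, where the constant `δ > 0` does not depend on `b`.  Let `N` be an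
arbitrary base point up to a fixed power of `b^K`, and `m = N + n`.  We consider ALL patterns `H` of `k`
elements in an interval `[0, c K^{s+1}]` such that the product of the numbers `n + h` and `a (n + h) + 1`,
`a ∈ S`, `h ∈ H`, has no fixed prime divisor: the length of the pattern may be comparable to the expected
mean distance of the integers near `m` for which `m` and all `a m + 1` are prime.

The number of the `n` such that all `m + h` and `a (m + h) + 1` are prime is at most `C V(H) ∏ |A i|`,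
with the sieve product `V(H)` of the pattern.  And for at least `κ V(H) ∏ |A i|` of the `n` the integers
`j` in `[m, m + c K^{s+1}]` for which `j` and all `a j + 1` have no prime factor `p ≤ b^{K/r}` are EXACTLY
the `m + h`, `h ∈ H`, and then these numbers have at most `r` prime factors; in particular for no other
`j` the numbers `j` and `a j + 1`, `a ∈ S`, are all prime.  The simplest case `k = 1`, `V ≥ κ / K^{s+1}`,
is the analogue of the conjectured lower bound.

The method is a Brun–Hooley sieve with weights, whose level of distribution is obtained from the Fourier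
transform of the set of the integers with restricted digits at rationals (large sieve in blocks of
digits), see `Pool/Agent/Y816/PD`; the other places are excluded by the upper bound for the patterns with
`k + 1` elements and an average of the sieve products (`Pool/Agent/H225/EP2`).
-/

set_option autoImplicit false

namespace Pool.Agent.Results.MP_bca3e5_nt.ExactPatterns

open Finset Filter Polynomial

/-- `S` is admissible: no prime divides `n * ∏ (a n + 1)` for all `n ≥ 1`. -/
def AdmissibleSet (S : Finset ℕ) : Prop :=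
  ∀ p : ℕ, p.Prime → ∃ n : ℕ, 1 ≤ n ∧ ¬ p ∣ n * ∏ a ∈ S, (a * n + 1)

/-- `H` is admissible: the product of the `n + h` and `a (n + h) + 1`, `a ∈ S`, `h ∈ H`, has no fixed
prime divisor. -/
def Admissible (S H : Finset ℕ) : Prop :=
  ∀ p : ℕ, p.Prime → ∃ n : ℕ, ∀ h ∈ H, ¬ p ∣ n + h ∧ ∀ a ∈ S, ¬ p ∣ a * (n + h) + 1

open Classical in
/-- The number of the `n` modulo `p` for which `p` divides one of the `n + h` or `a (n + h) + 1`. -/
noncomputable def nu (S H : Finset ℕ) (p : ℕ) : ℕ :=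
  ((range p).filter (fun n : ℕ => ∃ h ∈ H, p ∣ n + h ∨ ∃ a ∈ S, p ∣ a * (n + h) + 1)).card

/-- The product of `1 - nu p / p` over the primes `p ≤ x`. -/
noncomputable def V (S H : Finset ℕ) (x : ℕ) : ℝ :=
  ∏ p ∈ (Icc 1 x).filter Nat.Prime, (1 - (nu S H p : ℝ) / p)

open Classical in
/-- The number of the `n < b ^ K` in `T` whose `i`-th digit in base `b` belongs to `A i` for all
`i < K`. -/
noncomputable def count (b K : ℕ) (A : ℕ → Finset ℕ) (T : Set ℕ) : ℕ :=
  ((range (b ^ K)).filter (fun n => (∀ i < K, n / b ^ i % b ∈ A i) ∧ n ∈ T)).card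

/-- The number of choices of the digits. -/
noncomputable def choices (K : ℕ) (A : ℕ → Finset ℕ) : ℝ := ∏ i ∈ range K, ((A i).card : ℝ)

/-- All prime factors of `m` are larger than `z ^ (1 / r)`. -/
def Rough (r z m : ℕ) : Prop := ∀ p : ℕ, p.Prime → p ∣ m → z < p ^ r

open Pool.Agent.Y816.PD (NA ND ND_sub)
open Pool.Agent.W123.RU.Poly (Sys)
open Pool.Agent.W182.PW (lin lin_eval)
open Pool.Agent.TH977.PW (sys_lin)
open Pool.Agent.H225.EP (VV nuV exactV nt_lin)

variable {s : ℕ}

/-- the leading coefficients -/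
def al (e : Fin s → ℕ) : Fin (s + 1) → ℕ := Fin.cons 1 e

/-- the constant terms -/
def be (s : ℕ) : Fin (s + 1) → ℤ := Fin.cons 0 (fun _ => 1)

/-- the values -/
def v (e : Fin s → ℕ) : Fin (s + 1) → ℕ → ℕ := Fin.cons (fun m => m) (fun i m => e i * m + 1)

/-- the elements of an admissible set are larger than one -/
lemma two_le {S : Finset ℕ} (hS : ∀ a ∈ S, 1 ≤ a) (hadm : AdmissibleSet S) : ∀ a ∈ S, 2 ≤ a := by
  intro a ha
  by_contra h
  have h1 : a = 1 := by have := hS a ha; omega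
  subst h1
  obtain ⟨n, -, hn⟩ := hadm 2 Nat.prime_two
  refine hn ?_
  rcases Nat.even_or_odd n with h2 | h2
  · exact (even_iff_two_dvd.1 h2).mul_right _
  · refine Dvd.dvd.mul_left ?_ _
    refine dvd_trans ?_ (dvd_prod_of_mem (fun a => a * n + 1) ha)
    rw [one_mul]
    exact even_iff_two_dvd.1 (h2.add_one)

lemma al_pos {e : Fin s → ℕ} (he : ∀ i, 2 ≤ e i) (i : Fin (s + 1)) : 0 < al e i := by
  refine Fin.cases ?_ (fun i => ?_) i
  · exact Nat.one_pos
  · have := he i
    change 0 < e i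
    omega

lemma al_inj {e : Fin s → ℕ} (he : ∀ i, 2 ≤ e i) (hinj : Function.Injective e) :
    Function.Injective (al e) := by
  unfold al
  rw [Fin.cons_injective_iff]
  refine ⟨?_, hinj⟩
  rintro ⟨i, hi⟩
  have := he i
  omega

lemma sys {e : Fin s → ℕ} (he : ∀ i, 2 ≤ e i) (hinj : Function.Injective e)
    (hadm : ∀ p : ℕ, p.Prime → ∃ n : ℕ, ¬ p ∣ n ∧ ∀ i, ¬ p ∣ e i * n + 1) :
    Sys (fun i => lin (al e i) (be s i)) := by
  refine sys_lin (al e) (be s) (al_pos he) (fun i => ?_) (fun i j h _ => al_inj he hinj h)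
    (fun p hp => ?_)
  · refine Fin.cases ?_ (fun i => ?_) i
    · exact isCoprime_one_left
    · exact isCoprime_one_right
  · obtain ⟨n, hn0, hn⟩ := hadm p hp
    refine ⟨n, fun i => ?_⟩
    refine Fin.cases ?_ (fun i => ?_) i
    · intro hi
      have h1 : (p : ℤ) ∣ (n : ℤ) := by simpa [al, be] using hi
      exact hn0 (Int.natCast_dvd_natCast.1 h1)
    · intro hi
      have h1 : (p : ℤ) ∣ ((e i * n + 1 : ℕ) : ℤ) := by
        push_cast
        simpa [al, be] using hi
      exact hn i (Int.natCast_dvd_natCast.1 h1)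

lemma hv (e : Fin s → ℕ) (i : Fin (s + 1)) (m : ℕ) :
    ((lin (al e i) (be s i)).eval (m : ℤ)).natAbs = v e i m := by
  refine Fin.cases ?_ (fun i => ?_) i
  · change ((lin 1 0).eval (m : ℤ)).natAbs = m
    rw [lin_eval]
    simp
  · change ((lin (e i) 1).eval (m : ℤ)).natAbs = e i * m + 1
    rw [lin_eval]
    have h1 : ((e i : ℕ) : ℤ) * m + 1 = ((e i * m + 1 : ℕ) : ℤ) := by
      push_cast
      ring
    rw [h1, Int.natAbs_natCast]

lemma hge {e : Fin s → ℕ} (he : ∀ i, 2 ≤ e i) (i : Fin (s + 1)) (m : ℕ) (_ : (v e i m).Prime) :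
    m ≤ v e i m := by
  refine Fin.cases ?_ (fun i => ?_) i
  · exact le_rfl
  · change m ≤ e i * m + 1
    have := he i
    nlinarith

/-- conditions on all forms -/
lemma all_iff (P : ℕ → Prop) {S : Finset ℕ} {e : Fin s → ℕ} (heS : ∀ a, a ∈ S ↔ ∃ i, e i = a)
    (m : ℕ) : (∀ i, P (v e i m)) ↔ P m ∧ ∀ a ∈ S, P (a * m + 1) := by
  rw [Fin.forall_fin_succ]
  refine and_congr Iff.rfl ⟨fun h a ha => ?_, fun h i => h (e i) ((heS _).2 ⟨i, rfl⟩)⟩
  obtain ⟨i, rfl⟩ := (heS a).1 ha
  exact h i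

lemma V_eq {S : Finset ℕ} {e : Fin s → ℕ} (heS : ∀ a, a ∈ S ↔ ∃ i, e i = a) (H : Finset ℕ)
    (x : ℕ) : VV (v e) H x = V S H x := by
  classical
  unfold VV V nuV nu
  refine prod_congr rfl fun p _ => ?_
  have e' : (range p).filter (fun n : ℕ => ∃ h ∈ H, ∃ i, p ∣ v e i (n + h)) =
      (range p).filter (fun n : ℕ => ∃ h ∈ H, p ∣ n + h ∨ ∃ a ∈ S, p ∣ a * (n + h) + 1) := by
    refine filter_congr fun n _ => exists_congr fun h => and_congr_right fun _ => ?_
    have h1 := all_iff (fun m => ¬ p ∣ m) heS (n + h)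
    rw [← not_iff_not]
    push Not
    exact h1
  congr 3
  convert congrArg Finset.card e'

/-- **Exact patterns of places with almost prime `m` and `a m + 1`, `a ∈ S`, at integers with
restricted digits, uniformly in all admissible patterns with `k` elements and diameter up to a small
multiple of the expected mean distance of the places.** -/
theorem result (S : Finset ℕ) (_hS2 : 2 ≤ S.card) (hS : ∀ a ∈ S, 1 ≤ a) (hSadm : AdmissibleSet S)
    (k D : ℕ) (hk : 1 ≤ k) :
    ∃ δ : ℝ, 0 < δ ∧ ∃ r₀ : ℕ, 2 ≤ r₀ ∧ ∀ r : ℕ, r₀ ≤ r → ∀ b : ℕ, 2 ≤ b →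
      ∃ κ C c : ℝ, 0 < κ ∧ 0 < C ∧ 0 < c ∧
      ∀ᶠ K : ℕ in atTop, ∀ N : ℕ, N ≤ b ^ (D * K) →
        ∀ H : Finset ℕ, H.card = k → (∀ h ∈ H, (h : ℝ) ≤ c * (K : ℝ) ^ (S.card + 1)) →
        Admissible S H →
        ∀ A : ℕ → Finset ℕ, (∀ i < K, A i ⊆ range b) →
        (b : ℝ) ^ K ≤ Real.exp (δ * K) * choices K A →
        κ / (K : ℝ) ^ ((S.card + 1) * k) ≤ V S H (b ^ K) ∧
        ((∃ e ∈ A 0, ∀ h ∈ H, (N + e + h).Coprime b ∧ ∀ a ∈ S, (a * (N + e + h) + 1).Coprime b) →
          (∃ e ∈ A (K - 1), e ≠ 0) →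
          κ * choices K A * V S H (b ^ K) ≤ count b K A {n | b ^ (K - 1) ≤ n ∧
            (∀ j : ℕ, (j : ℝ) ≤ c * (K : ℝ) ^ (S.card + 1) →
              ((Rough r (b ^ K) (N + n + j) ∧
                ∀ a ∈ S, Rough r (b ^ K) (a * (N + n + j) + 1)) ↔ j ∈ H)) ∧
            ∀ h ∈ H, (N + n + h).primeFactorsList.length ≤ r ∧
              ∀ a ∈ S, (a * (N + n + h) + 1).primeFactorsList.length ≤ r}) ∧
        (count b K A {n | ∀ h ∈ H, (N + n + h).Prime ∧ ∀ a ∈ S, (a * (N + n + h) + 1).Prime} : ℝ) ≤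
          C * choices K A * V S H (b ^ K) := by
  have h2 := two_le hS hSadm
  obtain ⟨e, he⟩ : ∃ e : Fin S.card → ℕ, e = S.orderEmbOfFin rfl := ⟨_, rfl⟩
  have heS : ∀ a, a ∈ S ↔ ∃ i, e i = a := by
    intro a
    rw [he]
    have := Finset.range_orderEmbOfFin S (rfl : S.card = S.card)
    rw [← Finset.mem_coe, ← this]
    rfl
  have he2 : ∀ i, 2 ≤ e i := fun i => h2 _ ((heS _).2 ⟨i, rfl⟩)
  have hinj : Function.Injective e := by
    rw [he]
    exact (S.orderEmbOfFin rfl).injective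
  have hadm0 : ∀ p : ℕ, p.Prime → ∃ n : ℕ, ¬ p ∣ n ∧ ∀ i, ¬ p ∣ e i * n + 1 := by
    intro p hp
    obtain ⟨n, -, hn⟩ := hSadm p hp
    refine ⟨n, fun h => hn (h.mul_right _), fun i h => hn (Dvd.dvd.mul_left ?_ _)⟩
    exact h.trans (dvd_prod_of_mem (fun a => a * n + 1) ((heS _).2 ⟨i, rfl⟩))
  obtain ⟨δ, hδ, r₀, hr₀, h⟩ := exactV (by omega) (fun i => lin (al e i) (be S.card i))
    (sys he2 hinj hadm0) (nt_lin (al e) (be S.card) (al_pos he2) (al_inj he2 hinj)) (v e) (hv e)
    (hge he2) k D hk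
  refine ⟨δ, hδ, r₀, hr₀, fun r hr b hb => ?_⟩
  obtain ⟨κ, C, c, hκ, hC, hc, h1⟩ := h r hr b hb
  refine ⟨κ, C, c, hκ, hC, hc, ?_⟩
  filter_upwards [h1] with K hK N hN H hHk hHc hadm A hA hprod
  obtain ⟨h2, h3, h4⟩ := hK N hN H hHk hHc (fun p hp => by
    obtain ⟨n, hn⟩ := hadm p hp
    exact ⟨n, fun h hh => (all_iff (fun m => ¬ p ∣ m) heS (n + h)).2 (hn h hh)⟩) A hA hprod
  rw [V_eq heS] at h2 h3 h4
  refine ⟨h2, fun hcop htop => ?_, le_trans (Nat.cast_le.2 ?_) h4⟩
  · obtain ⟨d, hd, hcop⟩ := hcop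
    refine (h3 ⟨d, hd, fun h hh => (all_iff (fun m => m.Coprime b) heS (N + d + h)).2 (hcop h hh)⟩
      htop).trans (Nat.cast_le.2 ?_)
    refine ND_sub fun n _ hn1 hn2 => ⟨hn1, hn2.1, fun j hj => ?_, fun h hh => ?_⟩
    · rw [← hn2.2.1 j hj]
      exact (all_iff (fun m => ∀ p : ℕ, p.Prime → p ∣ m → b ^ K < p ^ r) heS (N + n + j)).symm
    · exact (all_iff (fun m => m.primeFactorsList.length ≤ r) heS (N + n + h)).1 (hn2.2.2 h hh)
  · refine ND_sub fun n _ hn1 hn2 => ⟨hn1, fun h hh => ?_⟩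
    exact (all_iff (fun m => m.Prime) heS (N + n + h)).2 (hn2 h hh)

end Pool.Agent.Results.MP_bca3e5_nt.ExactPatterns
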