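import Pool.Agent.V11249.NP.Law
import Pool.Agent.V11249.NP.Fam

/-!
# Primes `q` with `a_1 q + 1, …, a_s q + 1` almost prime: their number, and the Poisson law after them

Let `{a_1, …, a_s}` be admissible. Call `m` good if none of `m, a_1 m + 1, …, a_s m + 1` has a prime factor up to
`N ^ (1 / r)`. Let `P` be the set of the good primes `q` in a window `(u, u + Y] ⊆ (0, N]` with `Y ≥ δ N`.

(1) `|P| log N` is `Y S` up to the factor `1 + O (ε)`, `S` the product of `(1 - ν(p) / p) / (1 - 1 / p)` over the primes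
`p ≤ N ^ (1 / r)`, `ν(p)` the number of the `m` modulo `p` with `p ∣ m (a_1 m + 1) ⋯ (a_s m + 1)`.

(2) For the elements `q` of `P` the number of the good `m` in the window `(q, q + T]` has the Poisson distribution with
the mean value `T V`, up to an error `ε`; `V` is the product of `1 - ν(p) / p`.
-/

set_option autoImplicit false

namespace Pool.Agent.Results.MP_bca3e5_nt.LawAfterPrimes

open Finset Filter Polynomial

/-- `p` divides `n (a_1 n + 1) ⋯ (a_s n + 1)` for the prime `p` -/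
def Divides {s : ℕ} (a : Fin s → ℕ) (p n : ℕ) : Prop := p ∣ n ∨ ∃ i, p ∣ a i * n + 1

/-- admissible sets `{a_1, …, a_s}` of distinct positive integers -/
def Admissible {s : ℕ} (a : Fin s → ℕ) : Prop :=
  (∀ i, 0 < a i) ∧ Function.Injective a ∧ ∀ p : ℕ, p.Prime → ∃ n : ℕ, ¬ Divides a p n

/-- No prime up to `N ^ (1 / r)` divides `m` or some `a_i m + 1`. -/
def Good {s : ℕ} (a : Fin s → ℕ) (r N m : ℕ) : Prop :=
  ∀ p : ℕ, p.Prime → (p : ℝ) ≤ (N : ℝ) ^ (1 / (r : ℝ)) → ¬ Divides a p m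

open Classical in
/-- The good primes `q` in `(u, u + Y]`. -/
noncomputable def P {s : ℕ} (a : Fin s → ℕ) (r N u Y : ℕ) : Finset ℕ :=
  (Ioc u (u + Y)).filter (fun q => q.Prime ∧ Good a r N q)

open Classical in
/-- The number of the good `m` in the window `(n, n + T]`. -/
noncomputable def W {s : ℕ} (a : Fin s → ℕ) (r N T n : ℕ) : ℕ :=
  ((Ioc n (n + T)).filter (fun m => Good a r N m)).card

open Classical in
/-- The number of the residues `m` modulo `p` with `p ∣ m (a_1 m + 1) ⋯ (a_s m + 1)`. -/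
noncomputable def nu {s : ℕ} (a : Fin s → ℕ) (p : ℕ) : ℕ := ((range p).filter (fun m : ℕ => Divides a p m)).card

/-- The density of the good integers. -/
noncomputable def V {s : ℕ} (a : Fin s → ℕ) (r N : ℕ) : ℝ :=
  ∏ p ∈ (Icc 1 ⌊(N : ℝ) ^ (1 / (r : ℝ))⌋₊).filter Nat.Prime, (1 - (nu a p : ℝ) / p)

/-- The density of the good primes among the primes. -/
noncomputable def S {s : ℕ} (a : Fin s → ℕ) (r N : ℕ) : ℝ :=
  V a r N / ∏ p ∈ (Icc 1 ⌊(N : ℝ) ^ (1 / (r : ℝ))⌋₊).filter Nat.Prime, (1 - 1 / (p : ℝ))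

/-- the system -/
noncomputable def F {s : ℕ} (a : Fin s → ℕ) : Fin (s + 1) → ℤ[X] :=
  Fin.cons X (fun i => C (a i : ℤ) * X + C 1)

theorem ev0 {s : ℕ} (a : Fin s → ℕ) (n : ℕ) : (F a 0).eval (n : ℤ) = ((n : ℕ) : ℤ) := by
  simp [F]

theorem evS {s : ℕ} (a : Fin s → ℕ) (i : Fin s) (n : ℕ) :
    (F a i.succ).eval (n : ℤ) = ((a i * n + 1 : ℕ) : ℤ) := by
  simp [F]

theorem div_iff {s : ℕ} (a : Fin s → ℕ) (p n : ℕ) : (∃ i, (p : ℤ) ∣ (F a i).eval (n : ℤ)) ↔ Divides a p n := by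
  unfold Divides
  rw [Fin.exists_fin_succ, ev0, Int.natCast_dvd_natCast]
  constructor
  · rintro (h | ⟨i, h⟩)
    · exact Or.inl h
    · rw [evS, Int.natCast_dvd_natCast] at h
      exact Or.inr ⟨i, h⟩
  · rintro (h | ⟨i, h⟩)
    · exact Or.inl h
    · right
      refine ⟨i, ?_⟩
      rw [evS, Int.natCast_dvd_natCast]
      exact h

theorem adm {s : ℕ} {a : Fin s → ℕ} (h : Admissible a) :
    ∀ p : ℕ, p.Prime → ∃ m : ℕ, ∀ i, ¬ (p : ℤ) ∣ (F a i).eval (m : ℤ) := by
  intro p hp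
  obtain ⟨m, hm⟩ := h.2.2 p hp
  refine ⟨m, fun i hi => hm ?_⟩
  exact (div_iff a p m).1 ⟨i, hi⟩

theorem deg {s : ℕ} {a : Fin s → ℕ} (h : Admissible a) (i : Fin (s + 1)) : (F a i).natDegree = 1 := by
  refine Fin.cases ?_ (fun i => ?_) i
  · simp [F]
  · have h1 : (a i : ℤ) ≠ 0 := by
      have := h.1 i
      omega
    simpa [F] using natDegree_linear (b := (1 : ℤ)) h1

theorem sys {s : ℕ} {a : Fin s → ℕ} (h : Admissible a) : Pool.Agent.W123.RU.Poly.Sys (F a) where
  irr := by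
    intro i
    refine Fin.cases ?_ (fun i => ?_) i
    · simpa [F] using irreducible_X
    · have h1 : (a i : ℤ) ≠ 0 := by
        have := h.1 i
        omega
      have h2 := Pool.Agent.V11249.NP.lin_irr (a i : ℤ) 1 h1 (by simp)
      have e : Pool.Agent.TH464.PW.quad 0 (a i : ℤ) 1 = F a i.succ := by
        simp [F, Pool.Agent.TH464.PW.quad]
      rwa [e] at h2
  deg := fun i => by rw [deg h]; exact one_pos
  lead := by
    intro i
    refine Fin.cases ?_ (fun i => ?_) i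
    · simp [F]
    · have h1 : (a i : ℤ) ≠ 0 := by
        have := h.1 i
        omega
      have h2 : (F a i.succ).leadingCoeff = (a i : ℤ) := by
        simpa [F] using leadingCoeff_linear (b := (1 : ℤ)) h1
      rw [h2]
      have := h.1 i
      omega
  inj := by
    intro i j hij
    have h0 : ∀ i, (F a i).eval 0 = if i = 0 then 0 else 1 := by
      intro i
      refine Fin.cases ?_ (fun i => ?_) i
      · simp [F]
      · simp [F, Fin.succ_ne_zero]
    revert hij
    refine Fin.cases ?_ (fun i => ?_) i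
    · refine Fin.cases ?_ (fun j => ?_) j
      · intro _
        rfl
      · intro hij
        have := congrArg (fun g => eval 0 g) hij
        simp only [h0] at this
        simp [Fin.succ_ne_zero] at this
    · refine Fin.cases ?_ (fun j => ?_) j
      · intro hij
        have := congrArg (fun g => eval 0 g) hij
        simp only [h0] at this
        simp [Fin.succ_ne_zero] at this
      · intro hij
        have h3 := congrArg (fun g => eval ((1 : ℕ) : ℤ) g) hij
        simp only [evS] at h3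
        have h4 : a i = a j := by
          have : a i * 1 + 1 = a j * 1 + 1 := by exact_mod_cast h3
          omega
        rw [h.2.1 h4]
  adm := adm h


open Pool.Agent.TH464.PO Pool.Agent.TH464.PW Pool.Agent.W123.RU.Poly Pool.Agent.W123.RP
open Pool.Agent.H373R2.T7 Pool.Agent.Y879.GL Pool.Agent.Y879.PR

lemma F0 {s : ℕ} (a : Fin s → ℕ) : F a 0 = X := by simp [F]

lemma notr {s : ℕ} {a : Fin s → ℕ} (h : Admissible a) : NoTr (F a) := by
  have h1 : ∀ i, a i ≠ 1 := by
    intro i hi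
    obtain ⟨n, hn⟩ := h.2.2 2 Nat.prime_two
    apply hn
    unfold Divides
    rcases Nat.even_or_odd n with he | ho
    · exact Or.inl he.two_dvd
    · right
      refine ⟨i, ?_⟩
      rw [hi, one_mul]
      obtain ⟨c, hc⟩ := ho
      exact ⟨c + 1, by omega⟩
  intro i j t ht heq
  have ev : ∀ x : ℤ, (F a i).eval x = (F a j).eval (x + t) := by
    intro x
    have h1 := congrArg (fun g => eval x g) heq
    simp only [eval_comp, eval_add, eval_X, eval_C] at h1
    exact h1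
  have v0 : ∀ x : ℤ, (F a 0).eval x = x := by intro x; simp [F]
  have vS : ∀ (i : Fin s) (x : ℤ), (F a i.succ).eval x = a i * x + 1 := by intro i x; simp [F]
  have ht' : (1 : ℤ) ≤ t := by exact_mod_cast ht
  revert ev
  refine Fin.cases ?_ (fun i => ?_) i
  · refine Fin.cases ?_ (fun j => ?_) j
    · intro ev
      have e0 := ev 0
      rw [v0, v0] at e0
      omega
    · intro ev
      have e0 := ev 0
      rw [v0, vS] at e0
      have := mul_nonneg (Int.natCast_nonneg (a j)) (by omega : (0 : ℤ) ≤ 0 + t)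
      omega
  · refine Fin.cases ?_ (fun j => ?_) j
    · intro ev
      have e0 := ev 0
      have e1 := ev 1
      rw [vS, v0] at e0 e1
      have := h1 i
      omega
    · intro ev
      have e0 := ev 0
      have e1 := ev 1
      rw [vS, vS] at e0 e1
      have hp : (1 : ℤ) ≤ a j := by exact_mod_cast h.1 j
      nlinarith

lemma Q_iff {s : ℕ} (a : Fin s → ℕ) (p m : ℕ) : Q (F a) p m ↔ Divides a p m := by
  unfold Q
  exact div_iff a p m

lemma good_iff {s : ℕ} (a : Fin s → ℕ) (r N m : ℕ) :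
    Sf (Q (F a)) ⌊(N : ℝ) ^ (1 / (r : ℝ))⌋₊ m ↔ Good a r N m := by
  have h0 : (0 : ℝ) ≤ (N : ℝ) ^ (1 / (r : ℝ)) := by positivity
  constructor
  · intro h p hp hpX
    have h1 := h p (mem_pz.2 ⟨Nat.le_floor hpX, hp⟩)
    rwa [Q_iff] at h1
  · intro h p hp
    obtain ⟨h1, h2⟩ := mem_pz.1 hp
    rw [Q_iff]
    exact h p h2 ((Nat.le_floor_iff h0).1 h1)

lemma pz_eq (y : ℕ) : pz y = (Icc 1 y).filter Nat.Prime := by
  ext p
  rw [mem_pz, mem_filter, mem_Icc]
  constructor
  · rintro ⟨h1, h2⟩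
    exact ⟨⟨h2.pos, h1⟩, h2⟩
  · rintro ⟨⟨_, h1⟩, h2⟩
    exact ⟨h1, h2⟩

lemma V_eq {s : ℕ} (a : Fin s → ℕ) (r N : ℕ) : Vq (Q (F a)) ⌊(N : ℝ) ^ (1 / (r : ℝ))⌋₊ = V a r N := by
  classical
  unfold Vq V
  rw [pz_eq]
  apply Finset.prod_congr rfl
  intro p _
  have : nuB (Q (F a)) p = nu a p := by
    unfold nuB nu
    congr 1
    apply Finset.filter_congr
    intro m _
    exact Q_iff a p m
  rw [this]

lemma S_eq {s : ℕ} (a : Fin s → ℕ) (r N : ℕ) :
    Vq (Q (F a)) ⌊(N : ℝ) ^ (1 / (r : ℝ))⌋₊ / Vz ⌊(N : ℝ) ^ (1 / (r : ℝ))⌋₊ = S a r N := by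
  rw [V_eq]
  unfold S Vz
  rw [pz_eq]

lemma few {s : ℕ} (a : Fin s → ℕ) (r : ℕ) (hr : 1 ≤ r) : ∀ᶠ N : ℕ in atTop, ∀ m : ℕ, m ≤ N → Good a r N m →
    ∀ i, (a i * m + 1).primeFactorsList.length ≤ 2 * r := by
  have h : ∀ᶠ N : ℕ in atTop, ∀ i : Fin s, ∀ m : ℕ, m ≤ 3 * N →
      (Sf (Q (qs 0 (a i) 1)) ⌊(N : ℝ) ^ (1 / (r : ℝ))⌋₊ m ↔ APq 0 (a i) 1 r N m) := by
    rw [eventually_all]
    intro i
    exact sf_APq 0 (a i) 1 r hr
  filter_upwards [h] with N hN m hm hg i
  have e : (0 : ℤ) * (m : ℤ) ^ 2 + (a i : ℤ) * m + 1 = ((a i * m + 1 : ℕ) : ℤ) := by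
    push_cast
    ring
  have h1 : Sf (Q (qs 0 (a i) 1)) ⌊(N : ℝ) ^ (1 / (r : ℝ))⌋₊ m := by
    intro p hp hd
    rw [qs_Q, e, Int.natCast_dvd_natCast] at hd
    obtain ⟨h1, h2⟩ := mem_pz.1 hp
    exact hg p h2 ((Nat.le_floor_iff (by positivity)).1 h1) (Or.inr ⟨i, hd⟩)
  have h2 := ((hN i m (by omega)).1 h1).1
  rw [e, Int.natAbs_natCast] at h2
  exact h2

open Classical in
/-- For every admissible set, `0 < δ ≤ 1`, `x0`, `0 < ε ≤ 1` there is `r0` such that for all `r ≥ r0` and all large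
`N`: (0) every `a_i m + 1` has at most `2 r` prime factors for the good `m ≤ N`; for all `u`, `Y` with `Y ≥ δ N`,
`u + Y ≤ N`: (1) the number of the good primes in `(u, u + Y]` is `Y S / log N` up to at most `ε Y S / log N`; (2) for
all `T` with `T V ≤ x0` and all finite sets `B` the number of the good primes `q` in `(u, u + Y]` for which the number of
the good `m` in `(q, q + T]` lies in `B` is `∑_{j ∈ B} e ^ (-T V) (T V) ^ j / j!` times the number of all these good
primes, up to at most `ε` times it. -/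
theorem result {s : ℕ} (a : Fin s → ℕ) (ha : Admissible a) (δ : ℝ) (hδ : 0 < δ) (hδ1 : δ ≤ 1) (x0 ε : ℝ)
    (hε : 0 < ε) (hε1 : ε ≤ 1) :
    ∃ r0 : ℕ, ∀ r : ℕ, r0 ≤ r → ∀ᶠ N : ℕ in atTop,
      (∀ m : ℕ, m ≤ N → Good a r N m → ∀ i, (a i * m + 1).primeFactorsList.length ≤ 2 * r) ∧
      ∀ u Y : ℕ, δ * N ≤ Y → u + Y ≤ N →
      |((P a r N u Y).card : ℝ) * Real.log N - Y * S a r N| ≤ ε * (Y * S a r N) ∧
      ∀ T : ℕ, T * V a r N ≤ x0 → ∀ B : Finset ℕ,
        |(((P a r N u Y).filter (fun q => W a r N T q ∈ B)).card : ℝ) -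
          (P a r N u Y).card * ∑ j ∈ B, Real.exp (-(T * V a r N)) * (T * V a r N) ^ j / j.factorial| ≤
        ε * (P a r N u Y).card := by
  obtain ⟨r0, hr0, h⟩ := Pool.Agent.V11249.NP.law (F a) (sys ha) (notr ha) 0 (F0 a) δ hδ hδ1 x0 ε hε hε1
  refine ⟨r0, fun r hr => ?_⟩
  filter_upwards [h r hr, few a r (by omega)] with N hN hfew
  refine ⟨hfew, fun u Y hY huY => ?_⟩
  have hP : Om 1 0 (Q (F a)) ⌊(N : ℝ) ^ (1 / (r : ℝ))⌋₊ u Y = P a r N u Y := by
    unfold Om P
    apply Finset.filter_congr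
    intro n _
    rw [one_mul, add_zero, good_iff]
  have hW : ∀ n T, Wc (Sf (Q (F a)) ⌊(N : ℝ) ^ (1 / (r : ℝ))⌋₊) n T = W a r N T n := by
    intro n T
    unfold Wc W
    congr 1
    apply Finset.filter_congr
    intro m _
    exact good_iff a r N m
  obtain ⟨h1, h2⟩ := hN u Y hY huY
  rw [hP, S_eq] at h1
  refine ⟨h1, fun T hT B => ?_⟩
  have h3 := h2 T (by rw [V_eq]; exact hT) B
  rw [hP, V_eq] at h3
  simp only [hW] at h3
  exact h3

end Pool.Agent.Results.MP_bca3e5_nt.LawAfterPrimes
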