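import Pool.Agent.V11249.NP.Fix
import Pool.Agent.V11249.NP.Fam

/-!
# Arithmetic progressions of primes `n` with `a_1 n + 1, …, a_s n + 1` prime

For all admissible sets `{a_1, …, a_s}`, whatever their size, consider the primes `n` for which
`a_1 n + 1, …, a_s n + 1` are all prime. The number of these `n` in a window `(A, A + N]` has the
expected order of magnitude `N V` if and only if the number of their `k`-term arithmetic progressions with
differences up to `D` has the expected order of magnitude `N D V ^ k`, for all `D` between a power of `log N` and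
`N`; the constants depend only on `k` and `s`. The same holds for all sets of `n` at which the values have no
prime factor `≤ N ^ κ` (Szemerédi's theorem relative to these sets, and its converse).
-/

set_option autoImplicit false

open Finset Polynomial Pool.Agent.V11249.NP

namespace Pool.Agent.Results.MP_bca3e5_nt.ProgressionsOfArguments

/-- `p` divides `n (a_1 n + 1) ⋯ (a_s n + 1)` for the prime `p` -/
def Divides {s : ℕ} (a : Fin s → ℕ) (p n : ℕ) : Prop := p ∣ n ∨ ∃ i, p ∣ a i * n + 1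

/-- admissible sets `{a_1, …, a_s}` of distinct positive integers -/
def Admissible {s : ℕ} (a : Fin s → ℕ) : Prop :=
  (∀ i, 0 < a i) ∧ Function.Injective a ∧ ∀ p : ℕ, p.Prime → ∃ n : ℕ, ¬ Divides a p n

open Classical in
/-- the number of the residues `n` modulo `p` with `p ∣ n (a_1 n + 1) ⋯ (a_s n + 1)` -/
noncomputable def omega {s : ℕ} (a : Fin s → ℕ) (p : ℕ) : ℕ := ((range p).filter (fun m => Divides a p m)).card

/-- the sieve product over the primes `p ≤ N ^ κ` -/
noncomputable def V {s : ℕ} (a : Fin s → ℕ) (κ : ℝ) (N : ℕ) : ℝ :=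
  ∏ p ∈ (Icc 1 ⌊(N : ℝ) ^ κ⌋₊).filter Nat.Prime, (1 - (omega a p : ℝ) / p)

open Classical in
/-- the primes `n` in `(A, A + N]` for which `a_1 n + 1, …, a_s n + 1` are all prime -/
noncomputable def P {s : ℕ} (a : Fin s → ℕ) (A N : ℕ) : Finset ℕ :=
  (Ioc A (A + N)).filter (fun n => n.Prime ∧ ∀ i, (a i * n + 1).Prime)

/-- all prime factors of `n, a_1 n + 1, …, a_s n + 1` are larger than `N ^ κ` -/
def Rough {s : ℕ} (a : Fin s → ℕ) (κ : ℝ) (N n : ℕ) : Prop :=
  ∀ p : ℕ, p.Prime → Divides a p n → (N : ℝ) ^ κ < p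

open Classical in
/-- The number of the progressions `n, n + d, …, n + (k - 1) d` in `S` with `1 ≤ d ≤ D`. -/
noncomputable def AP (k D : ℕ) (S : Finset ℕ) : ℕ :=
  ((S ×ˢ Icc 1 D).filter (fun q => ∀ j < k, q.1 + j * q.2 ∈ S)).card

/-- the system -/
noncomputable def F {s : ℕ} (a : Fin s → ℕ) : Fin (s + 1) → ℤ[X] :=
  Fin.cons X (fun i => C (a i : ℤ) * X + C 1)

theorem ev0 {s : ℕ} (a : Fin s → ℕ) (n : ℕ) : (F a 0).eval (n : ℤ) = ((n : ℕ) : ℤ) := by
  simp [F]

theorem evS {s : ℕ} (a : Fin s → ℕ) (i : Fin s) (n : ℕ) :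
    (F a i.succ).eval (n : ℤ) = ((a i * n + 1 : ℕ) : ℤ) := by
  simp [F]

theorem div_iff {s : ℕ} (a : Fin s → ℕ) (p n : ℕ) : (∃ i, (p : ℤ) ∣ (F a i).eval (n : ℤ)) ↔ Divides a p n := by
  unfold Divides
  rw [Fin.exists_fin_succ, ev0, Int.natCast_dvd_natCast]
  constructor
  · rintro (h | ⟨i, h⟩)
    · exact Or.inl h
    · rw [evS, Int.natCast_dvd_natCast] at h
      exact Or.inr ⟨i, h⟩
  · rintro (h | ⟨i, h⟩)
    · exact Or.inl h
    · right
      refine ⟨i, ?_⟩
      rw [evS, Int.natCast_dvd_natCast]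
      exact h

theorem adm {s : ℕ} {a : Fin s → ℕ} (h : Admissible a) :
    ∀ p : ℕ, p.Prime → ∃ m : ℕ, ∀ i, ¬ (p : ℤ) ∣ (F a i).eval (m : ℤ) := by
  intro p hp
  obtain ⟨m, hm⟩ := h.2.2 p hp
  refine ⟨m, fun i hi => hm ?_⟩
  exact (div_iff a p m).1 ⟨i, hi⟩

theorem deg {s : ℕ} {a : Fin s → ℕ} (h : Admissible a) (i : Fin (s + 1)) : (F a i).natDegree = 1 := by
  refine Fin.cases ?_ (fun i => ?_) i
  · simp [F]
  · have h1 : (a i : ℤ) ≠ 0 := by
      have := h.1 i
      omega
    simpa [F] using natDegree_linear (b := (1 : ℤ)) h1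

theorem us {s : ℕ} {a : Fin s → ℕ} (h : Admissible a) : UniG.US 1 (F a) :=
  ⟨fun i => by rw [deg h]; exact ⟨le_rfl, le_rfl⟩, adm h⟩

theorem sys {s : ℕ} {a : Fin s → ℕ} (h : Admissible a) : Pool.Agent.W123.RU.Poly.Sys (F a) where
  irr := by
    intro i
    refine Fin.cases ?_ (fun i => ?_) i
    · simpa [F] using irreducible_X
    · have h1 : (a i : ℤ) ≠ 0 := by
        have := h.1 i
        omega
      have h2 := Pool.Agent.V11249.NP.lin_irr (a i : ℤ) 1 h1 (by simp)
      have e : Pool.Agent.TH464.PW.quad 0 (a i : ℤ) 1 = F a i.succ := by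
        simp [F, Pool.Agent.TH464.PW.quad]
      rwa [e] at h2
  deg := fun i => by rw [deg h]; exact one_pos
  lead := by
    intro i
    refine Fin.cases ?_ (fun i => ?_) i
    · simp [F]
    · have h1 : (a i : ℤ) ≠ 0 := by
        have := h.1 i
        omega
      have h2 : (F a i.succ).leadingCoeff = (a i : ℤ) := by
        simpa [F] using leadingCoeff_linear (b := (1 : ℤ)) h1
      rw [h2]
      have := h.1 i
      omega
  inj := by
    intro i j hij
    have h0 : ∀ i, (F a i).eval 0 = if i = 0 then 0 else 1 := by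
      intro i
      refine Fin.cases ?_ (fun i => ?_) i
      · simp [F]
      · simp [F, Fin.succ_ne_zero]
    revert hij
    refine Fin.cases ?_ (fun i => ?_) i
    · refine Fin.cases ?_ (fun j => ?_) j
      · intro _
        rfl
      · intro hij
        have := congrArg (fun g => eval 0 g) hij
        simp only [h0] at this
        simp [Fin.succ_ne_zero] at this
    · refine Fin.cases ?_ (fun j => ?_) j
      · intro hij
        have := congrArg (fun g => eval 0 g) hij
        simp only [h0] at this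
        simp [Fin.succ_ne_zero] at this
      · intro hij
        have h3 := congrArg (fun g => eval ((1 : ℕ) : ℤ) g) hij
        simp only [evS] at h3
        have h4 : a i = a j := by
          have : a i * 1 + 1 = a j * 1 + 1 := by exact_mod_cast h3
          omega
        rw [h.2.1 h4]
  adm := adm h

theorem V_eq {s : ℕ} (a : Fin s → ℕ) (κ : ℝ) (N : ℕ) : V a κ N = UniG.V (F a) κ N := by
  classical
  unfold V
  refine UniG.V_eq (F a) κ N _ (fun p _ => ?_)
  unfold omega
  congr 1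
  ext x
  rw [UniG.mem_ZZ, mem_filter, mem_range, div_iff]

/-- For every `k ≥ 1`, with constants which do not depend on the admissible set `{a_1, …, a_s}` nor on the window:
(1) for `κ > 0` a set `S` of integers of `(A, A + N]` at which `n, a_1 n + 1, …, a_s n + 1` have no prime factor `≤ N ^ κ` contains at most
`C N D V ^ k` progressions of length `k` with differences at most `D`;
(2) it contains at least `c₀ N D V ^ k` of them if it has at least `δ N V` elements, and it has at least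
`c₀ N V` elements if it contains at least `δ N D V ^ k` of them, for all `D` between `log ^ B N` and `N`;
(3), (4) the same for the set `P` (with `κ = 1/4` in `V`).
(5) For a fixed admissible set `V` is of the exact order `1 / log ^ (s + 1) N`. -/
theorem result (s : ℕ) (k : ℕ) (hk : 1 ≤ k) :
    (∀ κ : ℝ, 0 < κ → ∃ C : ℝ, 0 < C ∧ ∃ B N₀ : ℕ, ∀ a : Fin s → ℕ, Admissible a → ∀ N A D : ℕ,
      N₀ ≤ N → Real.log N ^ B ≤ D → ∀ S : Finset ℕ, S ⊆ Ioc A (A + N) → (∀ n ∈ S, Rough a κ N n) →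
        (AP k D S : ℝ) ≤ C * (N * D * V a κ N ^ k)) ∧
    (∀ κ δ : ℝ, 0 < κ → 0 < δ → ∃ c₀ : ℝ, 0 < c₀ ∧ ∃ B N₀ : ℕ, ∀ a : Fin s → ℕ, Admissible a → ∀ N A D : ℕ,
      N₀ ≤ N → Real.log N ^ B ≤ D → D ≤ N → ∀ S : Finset ℕ, S ⊆ Ioc A (A + N) →
        (∀ n ∈ S, Rough a κ N n) →
        (δ * (N * V a κ N) ≤ S.card → c₀ * (N * D * V a κ N ^ k) ≤ AP k D S) ∧
        (δ * (N * D * V a κ N ^ k) ≤ AP k D S → c₀ * (N * V a κ N) ≤ S.card)) ∧
    (∃ C : ℝ, 0 < C ∧ ∃ B N₀ : ℕ, ∀ a : Fin s → ℕ, Admissible a → ∀ N A D : ℕ, N₀ ≤ N →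
      Real.log N ^ B ≤ D → (AP k D (P a A N) : ℝ) ≤ C * (N * D * V a (1 / 4) N ^ k)) ∧
    (∀ δ : ℝ, 0 < δ → ∃ c₀ : ℝ, 0 < c₀ ∧ ∃ B N₀ : ℕ, ∀ a : Fin s → ℕ, Admissible a → ∀ N A D : ℕ, N₀ ≤ N →
      Real.log N ^ B ≤ D → D ≤ N →
      (δ * (N * V a (1 / 4) N) ≤ (P a A N).card →
        c₀ * (N * D * V a (1 / 4) N ^ k) ≤ AP k D (P a A N)) ∧
      (δ * (N * D * V a (1 / 4) N ^ k) ≤ AP k D (P a A N) →
        c₀ * (N * V a (1 / 4) N) ≤ (P a A N).card)) ∧
    (∀ a : Fin s → ℕ, Admissible a → ∀ κ : ℝ, 0 < κ → ∃ v C : ℝ, 0 < v ∧ 0 < C ∧ ∃ N₀ : ℕ, ∀ N : ℕ, N₀ ≤ N →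
      v / Real.log N ^ (s + 1) ≤ V a κ N ∧ V a κ N ≤ C / Real.log N ^ (s + 1)) := by
  obtain ⟨a1, a2, a3, a4⟩ := UniG.transfer (s + 1) 1 (fun a : Fin s → ℕ => F a) (fun a => Admissible a)
    (fun a h => us h) (fun a => Rough a) (fun a => P a) (fun a => V a)
    (fun a _ κ N n h i p hp hd => h p hp ((div_iff a p n).1 ⟨i, hd⟩))
    (fun a _ A N n => by
      unfold P
      rw [mem_filter, mem_Ioc, Fin.forall_fin_succ, ev0, Int.natAbs_natCast]
      simp only [evS, Int.natAbs_natCast])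
    (fun a _ κ N => V_eq a κ N) k hk
  refine ⟨a1, a2, a3, a4, ?_⟩
  intro a ha κ hκ
  obtain ⟨v, C, hv, hC, N₀, h⟩ := UniG.fixed (F a) (sys ha) κ hκ
  refine ⟨v, C, hv, hC, N₀, fun N hN => ?_⟩
  rw [V_eq]
  exact h N hN

end Pool.Agent.Results.MP_bca3e5_nt.ProgressionsOfArguments
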