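import Pool.Agent.W182.PW.Main
import Pool.Agent.V11249.NP.Fam

/-!
# Primes `n` with `a_1 n + 1, …, a_s n + 1` almost prime in all windows around a positive proportion of the integers

For every admissible set `{a_1, …, a_s}` there are `r` and `c₁, c₂, K > 0` such that a positive proportion of all
integers `n` is regular: every interval `(u, v]` with `u ≤ n ≤ v` and `K log ^ (s + 1) n ≤ v - u ≤ n` contains between
`c₁ (v - u) / log ^ (s + 1) n` and `c₂ (v - u) / log ^ (s + 1) n` primes `p` for which all of `a_1 p + 1, …, a_s p + 1`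
have at most `r` prime factors, all of them larger than `n ^ (1 / r)`.
-/

set_option autoImplicit false

namespace Pool.Agent.Results.MP_bca3e5_nt.RegularWindows

open Finset Filter Polynomial

/-- `p` divides `n (a_1 n + 1) ⋯ (a_s n + 1)` for the prime `p` -/
def Divides {s : ℕ} (a : Fin s → ℕ) (p n : ℕ) : Prop := p ∣ n ∨ ∃ i, p ∣ a i * n + 1

/-- admissible sets `{a_1, …, a_s}` of distinct positive integers -/
def Admissible {s : ℕ} (a : Fin s → ℕ) : Prop :=
  (∀ i, 0 < a i) ∧ Function.Injective a ∧ ∀ p : ℕ, p.Prime → ∃ n : ℕ, ¬ Divides a p n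

/-- `p` is prime and every `a_i p + 1` has at most `r` prime factors (with multiplicity), all of them larger
than `z`. -/
def AlmostTuple {s : ℕ} (a : Fin s → ℕ) (r : ℕ) (z : ℝ) (p : ℕ) : Prop :=
  p.Prime ∧ ∀ i, (a i * p + 1).primeFactorsList.length ≤ r ∧
    ∀ q : ℕ, q.Prime → q ∣ a i * p + 1 → z < (q : ℝ)

open Classical in
/-- the number of such primes in `(u, v]`, with `z = n ^ (1 / r)` -/
noncomputable def cnt {s : ℕ} (a : Fin s → ℕ) (r n u v : ℕ) : ℕ :=
  ((Ioc u v).filter (fun p => AlmostTuple a r ((n : ℝ) ^ (1 / (r : ℝ))) p)).card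

/-- `n` is regular: all windows `(u, v]` around `n` of length between `K log ^ (s + 1) n` and `n` contain the
right order of such primes -/
def Regular {s : ℕ} (a : Fin s → ℕ) (r : ℕ) (c₁ c₂ K : ℝ) (n : ℕ) : Prop :=
  ∀ u v : ℕ, u ≤ n → n ≤ v → K * Real.log n ^ (s + 1) ≤ (v : ℝ) - u → (v : ℝ) - u ≤ n →
    c₁ * ((v : ℝ) - u) / Real.log n ^ (s + 1) ≤ (cnt a r n u v : ℝ) ∧
    (cnt a r n u v : ℝ) ≤ c₂ * ((v : ℝ) - u) / Real.log n ^ (s + 1)

/-- the system -/
noncomputable def F {s : ℕ} (a : Fin s → ℕ) : Fin s → ℤ[X] := fun i => C (a i : ℤ) * X + C 1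

theorem evS {s : ℕ} (a : Fin s → ℕ) (i : Fin s) (n : ℕ) :
    (F a i).eval (n : ℤ) = ((a i * n + 1 : ℕ) : ℤ) := by
  simp [F]

theorem prime_almost {s : ℕ} (a : Fin s → ℕ) : Pool.Agent.W182.PW.PrimeAlmost (F a) = AlmostTuple a := by
  funext r z p
  refine propext ?_
  unfold Pool.Agent.W182.PW.PrimeAlmost AlmostTuple
  simp only [evS, Int.natAbs_natCast, Int.natCast_dvd_natCast]

theorem reg_eq {s : ℕ} (a : Fin s → ℕ) : Pool.Agent.W182.PW.RegularP (F a) (s + 1) = Regular a := by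
  funext r c₁ c₂ K n
  unfold Pool.Agent.W182.PW.RegularP Regular cnt
  rw [prime_almost]

open Classical in
/-- **Regular windows.** For every admissible set there are `r` and positive `c₁, c₂, K, κ` such that for all large
`x` at least `κ x` of the integers `n` in `[1, x]` are regular. -/
theorem result {s : ℕ} (hs : 1 ≤ s) (a : Fin s → ℕ) (ha : Admissible a) :
    ∃ (r : ℕ) (c₁ c₂ K κ : ℝ), 0 < c₁ ∧ 0 < c₂ ∧ 0 < K ∧ 0 < κ ∧
      ∀ᶠ x : ℕ in atTop, κ * x ≤ (((Icc 1 x).filter (fun n => Regular a r c₁ c₂ K n)).card : ℝ) := by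
  have : Nonempty (Fin s) := ⟨⟨0, hs⟩⟩
  have h0 : ∀ i, (a i : ℤ) ≠ 0 := fun i => by
    have := ha.1 i
    omega
  have hdeg : ∀ i, (F a i).natDegree = 1 := fun i => natDegree_linear (h0 i)
  have h := Pool.Agent.W182.PW.main (F a)
    (fun i => by
      have h2 := Pool.Agent.V11249.NP.lin_irr (a i : ℤ) 1 (h0 i) (by simp)
      have e : Pool.Agent.TH464.PW.quad 0 (a i : ℤ) 1 = F a i := by
        simp [F, Pool.Agent.TH464.PW.quad]
      rwa [e] at h2)
    (fun i => by rw [hdeg]; exact one_pos)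
    (fun i => by
      have h2 : (F a i).leadingCoeff = (a i : ℤ) := leadingCoeff_linear (h0 i)
      rw [h2]
      have := ha.1 i
      omega)
    (fun i j hij => by
      apply ha.2.1
      have h3 := congrArg (fun g => eval ((1 : ℕ) : ℤ) g) hij
      simp only [evS] at h3
      have : a i * 1 + 1 = a j * 1 + 1 := by exact_mod_cast h3
      omega)
    (fun i h => by
      have h3 := congrArg (fun g => eval ((0 : ℕ) : ℤ) g) h
      simp only [evS] at h3
      simp at h3)
    (fun p hp => by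
      obtain ⟨m, hm⟩ := ha.2.2 p hp
      refine ⟨m, fun h => hm (Or.inl h), fun i hi => hm (Or.inr ⟨i, ?_⟩)⟩
      rw [evS, Int.natCast_dvd_natCast] at hi
      exact hi)
  rw [Fintype.card_fin] at h
  have h' : ∃ (r : ℕ) (c₁ c₂ K κ : ℝ), 0 < c₁ ∧ 0 < c₂ ∧ 0 < K ∧ 0 < κ ∧
      ∀ᶠ x : ℕ in atTop, κ * x ≤
        (((Icc 1 x).filter (fun n => Pool.Agent.W182.PW.RegularP (F a) (s + 1) r c₁ c₂ K n)).card : ℝ) := h
  rw [reg_eq] at h'
  exact h'

end Pool.Agent.Results.MP_bca3e5_nt.RegularWindows
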